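import Mathlib
import Pool.Agent.Lib.MP_fcaed2_pr.Defs
import Pool.Agent.Lib.MP_fcaed2_pr.Limit

namespace Pool.Agent.Results.MP_fcaed2_pr.LimitExists

open Pool.Agent.Lib.MP_fcaed2_pr Filter Topology

/-- There is a constant `c` such that the minimal number of cuts of a uniformly random necklace
with two beads of each of `t` types, divided by `t`, converges to `c` in probability. -/
theorem result : ∃ c : ℝ, ∀ ε : ℝ, 0 < ε →
    Tendsto (fun t : ℕ => prob t (fun a => |(minCuts a : ℝ) / t - c| < ε)) atTop (𝓝 1) :=
  main

end Pool.Agent.Results.MP_fcaed2_pr.LimitExists
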